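import Mathlib
import Pool.Agent.AFCor.Defs
import Pool.Agent.AFCor.Final

/-!
# A separable non-AF C*-algebra without the universal AF embedding property

There is a separable C*-algebra without nonzero unital quotients, not AF, such that already the
two by two matrices do not embed unitally in its corona algebra.
-/

open scoped ComplexOrder

namespace Pool.Agent.Results.MP_4d6ef8_an.NoUniversalAFEmbedding

open Pool.Agent.AFCor

/-- There is a separable C*-algebra `A` with no nonzero unital quotients, which is not AF and does
not have the universal AF embedding property; there is even no unital `*`-homomorphism from the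
two by two matrices to the corona algebra of `A`. -/
theorem result : ∃ (A : Type) (_ : NonUnitalCStarAlgebra A),
    TopologicalSpace.SeparableSpace A ∧ NoUnitalQuotients A ∧ ¬ IsAF A ∧
      IsEmpty (CStarMatrix (Fin 2) (Fin 2) ℂ →⋆ₐ[ℂ] Corona A) ∧ ¬ UniversalAFEmbedding A :=
  exists_counterexample

end Pool.Agent.Results.MP_4d6ef8_an.NoUniversalAFEmbedding
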